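import Mathlib

/-!
# Varieties of groups all of whose members are derived groups

For every odd prime `p`, every group of exponent dividing `p` and nilpotency class at most two is
isomorphic to the derived subgroup of some group.  The proof is by the Baer correspondence: the
group becomes a vector space over `ZMod p` in which the derived group is a subspace; choosing a
complement, the map which is `-1` on the complement and `+1` on the derived group is an automorphism
of the group, and the semidirect product with this automorphism has the given group as its derived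
subgroup.
-/

set_option autoImplicit false

open scoped commutatorElement

namespace Pool.Agent.Results.MP_fbf3cb_al.OddPrimeExponentClassTwo

universe u

/-! ### The definitions used in the statement -/

/-- The group `G` satisfies every law `w = 1`, `w ∈ W`, where `W` is a set of words in the
countably many letters `x₀, x₁, …`. -/
def Satisfies (W : Set (FreeGroup ℕ)) (G : Type u) [Group G] : Prop :=
  ∀ w ∈ W, ∀ f : ℕ → G, FreeGroup.lift f w = 1

/-- The group `G` has an integral: it is isomorphic to the derived subgroup of some group `H`. -/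
def HasIntegral (G : Type u) [Group G] : Prop :=
  ∃ (H : Type u) (_ : Group H), Nonempty (commutator H ≃* G)

/-- The two laws `x₀ ^ p = 1` and `[[x₀, x₁], x₂] = 1`. -/
def laws (p : ℕ) : Set (FreeGroup ℕ) :=
  {FreeGroup.of 0 ^ p, ⁅⁅FreeGroup.of 0, FreeGroup.of 1⁆, FreeGroup.of 2⁆}

/-! ### The proof -/

/-- Hypotheses: class at most two and exponent dividing `2 * k + 1`. -/
structure Hyp (G : Type u) [Group G] (k : ℕ) : Prop where
  two : ∀ a b c : G, ⁅⁅a, b⁆, c⁆ = 1
  exp : ∀ a : G, a ^ (2 * k + 1) = 1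

section Baer
variable {G : Type u} [Group G] {k : ℕ} (h : Hyp G k)
include h

lemma Hyp.central (a b c : G) : ⁅a, b⁆ * c = c * ⁅a, b⁆ := by
  have := h.two a b c
  rwa [commutatorElement_eq_one_iff_mul_comm] at this

lemma Hyp.commute (a b c : G) : Commute (⁅a, b⁆) c := h.central a b c

lemma Hyp.comm_mul_left (a b c : G) : ⁅a * b, c⁆ = ⁅a, c⁆ * ⁅b, c⁆ := by
  have h1 : ⁅a * b, c⁆ = a * ⁅b, c⁆ * a⁻¹ * ⁅a, c⁆ := by
    simp only [commutatorElement_def]; group
  rw [h1, ← h.central b c a, mul_assoc (⁅b, c⁆), mul_inv_cancel, mul_one, h.central]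

lemma Hyp.comm_mul_right (a b c : G) : ⁅a, b * c⁆ = ⁅a, b⁆ * ⁅a, c⁆ := by
  have h1 : ⁅a, b * c⁆ = ⁅a, b⁆ * (b * ⁅a, c⁆ * b⁻¹) := by
    simp only [commutatorElement_def]; group
  rw [h1, ← h.central a c b, mul_assoc (⁅a, c⁆), mul_inv_cancel, mul_one]

lemma Hyp.comm_central_left (a b c d : G) : ⁅a * ⁅b, c⁆, d⁆ = ⁅a, d⁆ := by
  rw [h.comm_mul_left, h.two, mul_one]

lemma Hyp.comm_pow_left (a b c : G) (n : ℕ) : ⁅⁅a, b⁆ ^ n, c⁆ = 1 := by
  rw [commutatorElement_eq_one_iff_mul_comm]
  exact (h.commute a b c).pow_left n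

lemma Hyp.comm_pow_right (a b c : G) (n : ℕ) : ⁅c, ⁅a, b⁆ ^ n⁆ = 1 := by
  rw [commutatorElement_eq_one_iff_mul_comm]
  exact ((h.commute a b c).pow_left n).symm

omit h in
/-- Baer sum -/
def bsum (k : ℕ) (x y : G) : G := x * y * ⁅x, y⁆ ^ k

lemma Hyp.bsum_comm (x y : G) : bsum k x y = bsum k y x := by
  unfold bsum
  have e1 : x * y = ⁅x, y⁆ * (y * x) := by simp [commutatorElement_def]
  have e2 : ⁅y, x⁆ = ⁅x, y⁆⁻¹ := by rw [commutatorElement_inv]
  have e3 : ⁅x, y⁆ ^ k * ⁅x, y⁆ = (⁅x, y⁆⁻¹) ^ k := by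
    rw [inv_pow, eq_inv_iff_mul_eq_one, ← pow_succ, ← pow_add]
    have := h.exp ⁅x, y⁆
    rw [show k + 1 + k = 2 * k + 1 by ring]
    exact this
  rw [e2, ← e3, e1, h.central x y (y * x), mul_assoc, ← pow_succ', ← pow_succ]

lemma Hyp.bsum_assoc (x y z : G) : bsum k (bsum k x y) z = bsum k x (bsum k y z) := by
  unfold bsum
  rw [h.comm_mul_left, h.comm_pow_left, mul_one, h.comm_mul_right x, h.comm_pow_right, mul_one,
    h.comm_mul_left, h.comm_mul_right]
  have c1 := (h.commute x y z).pow_left k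
  have e1 : (⁅x, z⁆ * ⁅y, z⁆) ^ k = ⁅x, z⁆ ^ k * ⁅y, z⁆ ^ k := (h.commute x z _).mul_pow k
  have e2 : (⁅x, y⁆ * ⁅x, z⁆) ^ k = ⁅x, y⁆ ^ k * ⁅x, z⁆ ^ k := (h.commute x y _).mul_pow k
  rw [e1, e2]
  have c2 : ⁅x, y⁆ ^ k * (⁅x, z⁆ ^ k * ⁅y, z⁆ ^ k) = ⁅y, z⁆ ^ k * (⁅x, y⁆ ^ k * ⁅x, z⁆ ^ k) := by
    rw [← mul_assoc]
    exact (((h.commute y z _).pow_left k)).symm
  calc x * y * ⁅x, y⁆ ^ k * z * (⁅x, z⁆ ^ k * ⁅y, z⁆ ^ k)
      = x * y * (⁅x, y⁆ ^ k * z) * (⁅x, z⁆ ^ k * ⁅y, z⁆ ^ k) := by simp only [mul_assoc]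
    _ = x * y * (z * ⁅x, y⁆ ^ k) * (⁅x, z⁆ ^ k * ⁅y, z⁆ ^ k) := by rw [c1.eq]
    _ = x * y * z * (⁅x, y⁆ ^ k * (⁅x, z⁆ ^ k * ⁅y, z⁆ ^ k)) := by simp only [mul_assoc]
    _ = x * y * z * (⁅y, z⁆ ^ k * (⁅x, y⁆ ^ k * ⁅x, z⁆ ^ k)) := by rw [c2]
    _ = x * (y * z * ⁅y, z⁆ ^ k) * (⁅x, y⁆ ^ k * ⁅x, z⁆ ^ k) := by simp only [mul_assoc]

omit h in
lemma one_bsum (x : G) : bsum k 1 x = x := by simp [bsum]

omit h in
lemma bsum_one (x : G) : bsum k x 1 = x := by simp [bsum]

omit h in
lemma inv_bsum (x : G) : bsum k x⁻¹ x = 1 := by simp [bsum, commutatorElement_def]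

end Baer

/-- The group `G` regarded as an additive group through the Baer sum. -/
def B (G : Type u) [Group G] {k : ℕ} (_ : Hyp G k) : Type u := G

variable {G : Type u} [Group G] {k : ℕ} (h : Hyp G k)

instance : Zero (B G h) := ⟨(1 : G)⟩
instance : Add (B G h) := ⟨fun x y => bsum k (G := G) x y⟩
instance : Neg (B G h) := ⟨fun x => ((x : G)⁻¹ : G)⟩

instance : AddCommGroup (B G h) where
  add_assoc x y z := h.bsum_assoc x y z
  zero_add x := one_bsum (G := G) x
  add_zero x := bsum_one (G := G) x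
  neg_add_cancel x := inv_bsum (G := G) x
  add_comm x y := h.bsum_comm x y
  nsmul := nsmulRec
  zsmul := zsmulRec

/-- The identity map `G → B G h`. -/
def toB (x : G) : B G h := x
/-- The identity map `B G h → G`. -/
def ofB (x : B G h) : G := x

@[simp] lemma toB_ofB (x : B G h) : toB h (ofB h x) = x := rfl
@[simp] lemma ofB_toB (x : G) : ofB h (toB h x) = x := rfl
lemma toB_add (x y : G) : toB h x + toB h y = toB h (x * y * ⁅x, y⁆ ^ k) := rfl
lemma ofB_add (x y : B G h) : ofB h (x + y) = ofB h x * ofB h y * ⁅ofB h x, ofB h y⁆ ^ k := rfl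
lemma ofB_zero : ofB h 0 = 1 := rfl
lemma ofB_neg (x : B G h) : ofB h (-x) = (ofB h x)⁻¹ := rfl

lemma ofB_nsmul (n : ℕ) (x : B G h) : ofB h (n • x) = (ofB h x) ^ n := by
  induction n with
  | zero => rw [zero_smul, ofB_zero, pow_zero]
  | succ n ih =>
    rw [succ_nsmul, ofB_add, ih]
    have : ⁅(ofB h x) ^ n, ofB h x⁆ = 1 := by
      rw [commutatorElement_eq_one_iff_mul_comm]
      exact (Commute.refl _).pow_left n
    rw [this, one_pow, mul_one, pow_succ]


include h

lemma char_nsmul (x : B G h) : (2 * k + 1) • x = 0 := by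
  have := ofB_nsmul h (2 * k + 1) x
  rw [h.exp] at this
  exact this

/-- The `ZMod (2k+1)`-module structure. -/
abbrev modB : Module (ZMod (2 * k + 1)) (B G h) :=
  AddCommGroup.zmodModule (char_nsmul h)

lemma mem_commutator_central {x : G} (hx : x ∈ commutator G) (y : G) : ⁅x, y⁆ = 1 := by
  rw [commutatorElement_eq_one_iff_mul_comm]
  have : commutator G ≤ Subgroup.center G := by
    rw [commutator_def, Subgroup.commutator_le]
    intro a _ b _
    rw [Subgroup.mem_center_iff]
    intro g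
    exact (h.central a b g).symm
  exact ((Subgroup.mem_center_iff.mp (this hx)) y).symm

lemma mem_commutator_central' {x : G} (hx : x ∈ commutator G) (y : G) : ⁅y, x⁆ = 1 := by
  rw [← commutatorElement_inv, mem_commutator_central h hx, inv_one]

/-- The derived subgroup as an additive subgroup. -/
def derB : AddSubgroup (B G h) where
  carrier := {x | ofB h x ∈ commutator G}
  add_mem' := by
    intro a b ha hb
    simp only [Set.mem_ofPred_eq] at *
    have e : ⁅ofB h a, ofB h b⁆ = 1 := mem_commutator_central h ha _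
    rw [ofB_add, e, one_pow, mul_one]
    exact mul_mem ha hb
  zero_mem' := by
    simp only [Set.mem_ofPred_eq]
    rw [ofB_zero]; exact one_mem _
  neg_mem' := by
    intro a ha
    simp only [Set.mem_ofPred_eq] at *
    rw [ofB_neg]; exact inv_mem ha

/-- There is an automorphism inverting a generating set modulo the derived group. -/
theorem exists_inverting_aut (hp : (2 * k + 1).Prime) :
    ∃ σ : G ≃* G, ∀ g : G, ∃ v w : G, g = v * w ∧ σ v = v⁻¹ ∧ w ∈ commutator G := by
  have : Fact (2 * k + 1).Prime := ⟨hp⟩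
  let _ := modB h
  let W : Submodule (ZMod (2 * k + 1)) (B G h) := AddSubgroup.toZModSubmodule _ (derB h)
  have hW : ∀ x : B G h, x ∈ W ↔ ofB h x ∈ commutator G := fun x => Iff.rfl
  obtain ⟨V, hV⟩ := Submodule.exists_isCompl W
  -- the linear map which is the identity on `W` and minus the identity on `V`
  let T : B G h →ₗ[ZMod (2 * k + 1)] B G h := LinearMap.ofIsCompl hV W.subtype (-V.subtype)
  have hTW : ∀ x ∈ W, T x = x := fun x hx =>
    LinearMap.ofIsCompl_apply_left hV (φ := W.subtype) (ψ := -V.subtype) ⟨x, hx⟩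
  have hTV : ∀ x ∈ V, T x = -x := fun x hx =>
    LinearMap.ofIsCompl_apply_right hV (φ := W.subtype) (ψ := -V.subtype) ⟨x, hx⟩
  have hdec : ∀ x : B G h, ∃ v w : B G h, v ∈ V ∧ w ∈ W ∧ x = v + w := by
    intro x
    obtain ⟨w, v, hw, hv, hx⟩ := Submodule.codisjoint_iff_exists_add_eq.mp hV.codisjoint x
    exact ⟨v, w, hv, hw, by rw [← hx, add_comm]⟩
  have hTT : ∀ x, T (T x) = x := by
    intro x
    obtain ⟨v, w, hv, hw, rfl⟩ := hdec x
    rw [map_add, hTW w hw, hTV v hv, map_add, map_neg, hTW w hw, hTV v hv, neg_neg]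
  -- addition of an element of the derived group is multiplication
  have hadd : ∀ (x w : B G h), w ∈ W → ofB h (x + w) = ofB h x * ofB h w := by
    intro x w hw
    have e : ⁅ofB h x, ofB h w⁆ = 1 := mem_commutator_central' h hw _
    rw [ofB_add, e, one_pow, mul_one]
  let s : G → G := fun g => ofB h (T (toB h g))
  have hss : ∀ g, s (s g) = g := by
    intro g
    change ofB h (T (T (toB h g))) = g
    rw [hTT]; rfl
  have hcm : ∀ x y : G, ⁅x, y⁆ ∈ commutator G := fun x y =>
    Subgroup.commutator_mem_commutator (Subgroup.mem_top x) (Subgroup.mem_top y)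
  -- commutators are preserved
  have hbr : ∀ x y : G, ⁅s x, s y⁆ = ⁅x, y⁆ := by
    intro x y
    obtain ⟨v, w, hv, hw, hx⟩ := hdec (toB h x)
    obtain ⟨v', w', hv', hw', hy⟩ := hdec (toB h y)
    have ex : x = ofB h v * ofB h w := by
      have := congrArg (ofB h) hx
      rwa [hadd v w hw] at this
    have ey : y = ofB h v' * ofB h w' := by
      have := congrArg (ofB h) hy
      rwa [hadd v' w' hw'] at this
    have sx : s x = (ofB h v)⁻¹ * ofB h w := by
      change ofB h (T (toB h x)) = _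
      rw [hx, map_add, hTW w hw, hTV v hv, hadd _ w hw, ofB_neg]
    have sy : s y = (ofB h v')⁻¹ * ofB h w' := by
      change ofB h (T (toB h y)) = _
      rw [hy, map_add, hTW w' hw', hTV v' hv', hadd _ w' hw', ofB_neg]
    have c1 : ∀ z : G, ⁅ofB h w, z⁆ = 1 := mem_commutator_central h hw
    have c2 : ∀ z : G, ⁅z, ofB h w'⁆ = 1 := mem_commutator_central' h hw'
    have i1 : ∀ a b : G, ⁅a⁻¹, b⁆ = ⁅a, b⁆⁻¹ := by
      intro a b
      rw [eq_inv_iff_mul_eq_one, ← h.comm_mul_left, inv_mul_cancel, commutatorElement_one_left]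
    have i2 : ∀ a b : G, ⁅a, b⁻¹⁆ = ⁅a, b⁆⁻¹ := by
      intro a b
      rw [eq_inv_iff_mul_eq_one, ← h.comm_mul_right, inv_mul_cancel, commutatorElement_one_right]
    rw [sx, sy]
    conv_rhs => rw [ex, ey]
    rw [h.comm_mul_left, h.comm_mul_left, c1, c1, mul_one, mul_one, h.comm_mul_right,
      h.comm_mul_right, c2, c2, mul_one, mul_one, i1, i2, inv_inv]
  -- `x * y` in terms of the Baer sum
  have hmul : ∀ x y : G, x * y = ofB h (toB h x + toB h y + toB h ((⁅x, y⁆ ^ k)⁻¹)) := by
    intro x y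
    have hw : toB h ((⁅x, y⁆ ^ k)⁻¹) ∈ W := (hW _).2 (inv_mem (pow_mem (hcm x y) k))
    rw [hadd _ _ hw, toB_add, ofB_toB, ofB_toB, mul_assoc, mul_inv_cancel, mul_one]
  have hmap : ∀ x y : G, s (x * y) = s x * s y := by
    intro x y
    have hw : toB h ((⁅x, y⁆ ^ k)⁻¹) ∈ W := (hW _).2 (inv_mem (pow_mem (hcm x y) k))
    have e1 : s (x * y) = ofB h (T (toB h x) + T (toB h y) + toB h ((⁅x, y⁆ ^ k)⁻¹)) := by
      change ofB h (T (toB h (x * y))) = _
      rw [hmul x y, toB_ofB, map_add, map_add, hTW _ hw]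
    rw [e1, hmul (s x) (s y), hbr]
    rfl
  refine ⟨{ toFun := s, invFun := s, left_inv := hss, right_inv := hss, map_mul' := hmap }, ?_⟩
  intro g
  obtain ⟨v, w, hv, hw, hx⟩ := hdec (toB h g)
  refine ⟨ofB h v, ofB h w, ?_, ?_, hw⟩
  · have := congrArg (ofB h) hx
    rwa [hadd v w hw] at this
  · change ofB h (T v) = _
    rw [hTV v hv, ofB_neg]

/-- Every group of class at most two and odd prime exponent is a derived group. -/
theorem integrable (hp : (2 * k + 1).Prime) :
    ∃ (H : Type u) (_ : Group H), Nonempty (commutator H ≃* G) := by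
  obtain ⟨σ, hσ⟩ := exists_inverting_aut h hp
  let φ : Multiplicative ℤ →* MulAut G := zpowersHom (MulAut G) σ
  have hφ : φ (Multiplicative.ofAdd 1) = σ := by simp [φ]
  refine ⟨G ⋊[φ] Multiplicative ℤ, inferInstance, ?_⟩
  have hrange : commutator (G ⋊[φ] Multiplicative ℤ) = (SemidirectProduct.inl : G →* _).range := by
    apply le_antisymm
    · rw [SemidirectProduct.range_inl_eq_ker_rightHom]
      exact Abelianization.commutator_subset_ker _
    · rintro _ ⟨g, rfl⟩
      obtain ⟨v, w, rfl, hv, hw⟩ := hσ g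
      rw [map_mul]
      refine mul_mem ?_ ?_
      · -- `v` is a power of `v ^ 2 = [v, σ]`
        have e : ⁅(SemidirectProduct.inl v : G ⋊[φ] Multiplicative ℤ),
            (SemidirectProduct.inr (Multiplicative.ofAdd (1 : ℤ)) : G ⋊[φ] Multiplicative ℤ)⁆ =
              SemidirectProduct.inl (v ^ 2) := by
          have h1 := SemidirectProduct.inl_aut (φ := φ) (Multiplicative.ofAdd (1 : ℤ)) v⁻¹
          rw [hφ, map_inv, hv, inv_inv, map_inv, map_inv] at h1
          rw [commutatorElement_def, mul_assoc, mul_assoc, ← mul_assoc (SemidirectProduct.inr _),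
            ← h1, ← map_mul, pow_two]
        have e2 : (v ^ 2) ^ (k + 1) = v := by
          rw [← pow_mul, show 2 * (k + 1) = (2 * k + 1) + 1 by ring, pow_succ, h.exp, one_mul]
        rw [← e2, map_pow, ← e]
        exact pow_mem (Subgroup.commutator_mem_commutator (Subgroup.mem_top _)
          (Subgroup.mem_top _)) _
      · have : (commutator G).map (SemidirectProduct.inl : G →* G ⋊[φ] Multiplicative ℤ) ≤
            commutator _ := by
          rw [commutator_def, commutator_def, Subgroup.map_commutator]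
          exact Subgroup.commutator_mono le_top le_top
        exact this (Subgroup.mem_map_of_mem _ hw)
  refine ⟨((MulEquiv.subgroupCongr hrange).trans ?_).symm.symm⟩
  exact (MonoidHom.ofInjective SemidirectProduct.inl_injective).symm


omit h
/-! ### The Heisenberg group modulo `n` -/

/-- The Heisenberg group over `ZMod n`. -/
@[ext] structure Heis (n : ℕ) where
  a : ZMod n
  b : ZMod n
  c : ZMod n

namespace Heis
variable {n : ℕ}

instance : Mul (Heis n) := ⟨fun x y => ⟨x.a + y.a, x.b + y.b, x.c + y.c + x.a * y.b⟩⟩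
instance : One (Heis n) := ⟨⟨0, 0, 0⟩⟩
instance : Inv (Heis n) := ⟨fun x => ⟨-x.a, -x.b, -x.c + x.a * x.b⟩⟩

@[simp] lemma mul_a (x y : Heis n) : (x * y).a = x.a + y.a := rfl
@[simp] lemma mul_b (x y : Heis n) : (x * y).b = x.b + y.b := rfl
@[simp] lemma mul_c (x y : Heis n) : (x * y).c = x.c + y.c + x.a * y.b := rfl
@[simp] lemma one_a : (1 : Heis n).a = 0 := rfl
@[simp] lemma one_b : (1 : Heis n).b = 0 := rfl
@[simp] lemma one_c : (1 : Heis n).c = 0 := rfl
@[simp] lemma inv_a (x : Heis n) : (x⁻¹).a = -x.a := rfl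
@[simp] lemma inv_b (x : Heis n) : (x⁻¹).b = -x.b := rfl
@[simp] lemma inv_c (x : Heis n) : (x⁻¹).c = -x.c + x.a * x.b := rfl

instance : Group (Heis n) := Group.ofLeftAxioms
  (by intro x y z; ext <;> simp <;> ring)
  (by intro x; ext <;> simp)
  (by intro x; ext <;> simp)

lemma class_two (x y z : Heis n) : ⁅⁅x, y⁆, z⁆ = 1 := by
  simp only [commutatorElement_def]
  ext <;> simp <;> ring

lemma pow_a (x : Heis n) (m : ℕ) : (x ^ m).a = m * x.a := by
  induction m with
  | zero => simp
  | succ m ih => rw [pow_succ, mul_a, ih]; push_cast; ring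

lemma pow_b (x : Heis n) (m : ℕ) : (x ^ m).b = m * x.b := by
  induction m with
  | zero => simp
  | succ m ih => rw [pow_succ, mul_b, ih]; push_cast; ring

lemma pow_c (x : Heis n) (m : ℕ) : (x ^ m).c = m * x.c + (m.choose 2 : ℕ) * (x.a * x.b) := by
  induction m with
  | zero => simp
  | succ m ih =>
    rw [pow_succ, mul_c, ih, pow_a]
    have : (m + 1).choose 2 = m + m.choose 2 := by
      rw [Nat.choose_succ_succ' m 1, Nat.choose_one_right]
    rw [this]
    push_cast; ring

lemma pow_exp (k : ℕ) (x : Heis (2 * k + 1)) : x ^ (2 * k + 1) = 1 := by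
  have h0 : ((2 * k + 1 : ℕ) : ZMod (2 * k + 1)) = 0 := ZMod.natCast_self _
  have h1 : (((2 * k + 1).choose 2 : ℕ) : ZMod (2 * k + 1)) = 0 := by
    have : (2 * k + 1).choose 2 = (2 * k + 1) * k := by
      rw [Nat.choose_two_right]
      simp only [Nat.add_sub_cancel]
      rw [show (2 * k + 1) * (2 * k) = 2 * ((2 * k + 1) * k) by ring]
      simp
    rw [this, Nat.cast_mul, h0, zero_mul]
  ext
  · rw [pow_a, h0]; simp
  · rw [pow_b, h0]; simp
  · rw [pow_c, h0, h1]; simp

lemma not_comm (hn : 1 < n) : (⟨1, 0, 0⟩ : Heis n) * ⟨0, 1, 0⟩ ≠ ⟨0, 1, 0⟩ * ⟨1, 0, 0⟩ := by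
  intro h
  have : Fact (1 < n) := ⟨hn⟩
  have := congrArg Heis.c h
  simp at this

end Heis


lemma heis_satisfies (k : ℕ) : Satisfies (laws (2 * k + 1)) (Heis (2 * k + 1)) := by
  intro w hw f
  rcases hw with rfl | hw
  · rw [map_pow]
    exact Heis.pow_exp k _
  · rw [Set.mem_singleton_iff] at hw
    subst hw
    rw [map_commutatorElement, map_commutatorElement]
    exact Heis.class_two _ _ _

lemma satisfies_ulift {W : Set (FreeGroup ℕ)} {G : Type} [Group G] (h : Satisfies W G) :
    Satisfies W (ULift.{u} G) := by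
  intro w hw f
  have h1 := h w hw (fun i => (f i).down)
  have h2 : (MulEquiv.ulift : ULift.{u} G ≃* G) (FreeGroup.lift f w) =
      FreeGroup.lift (fun i => (f i).down) w := by
    have : ((MulEquiv.ulift : ULift.{u} G ≃* G).toMonoidHom.comp (FreeGroup.lift f)) =
        FreeGroup.lift (fun i => (f i).down) := by
      ext i
      rw [MonoidHom.comp_apply, FreeGroup.lift_apply_of, FreeGroup.lift_apply_of]
      rfl
    rw [← this]; rfl
  rw [h1] at h2
  exact (MulEquiv.ulift : ULift.{u} G ≃* G).injective (by rw [h2, map_one])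

/-- For every odd prime `p` the variety of all groups of exponent dividing `p` and nilpotency class
at most two is not contained in the variety of abelian groups, and every group in it has an
integral. -/
theorem result (p : ℕ) (hp : p.Prime) (hodd : p ≠ 2) :
    (∃ (E : Type u) (_ : Group E), Satisfies (laws p) E ∧ ∃ a b : E, a * b ≠ b * a) ∧
    (∀ (G : Type u) [Group G], Satisfies (laws p) G → HasIntegral G) := by
  obtain ⟨k, rfl⟩ := hp.odd_of_ne_two hodd
  constructor
  · refine ⟨ULift.{u} (Heis (2 * k + 1)), inferInstance, satisfies_ulift (heis_satisfies k),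
      ⟨⟨1, 0, 0⟩⟩, ⟨⟨0, 1, 0⟩⟩, ?_⟩
    intro e
    exact Heis.not_comm (n := 2 * k + 1) hp.one_lt (congrArg ULift.down e)
  · intro G _ hG
    have h : Hyp G k := by
      constructor
      · intro a b c
        have := hG (⁅⁅FreeGroup.of 0, FreeGroup.of 1⁆, FreeGroup.of 2⁆) (by simp [laws])
          (fun i => if i = 0 then a else if i = 1 then b else c)
        simpa [map_commutatorElement] using this
      · intro a
        have := hG (FreeGroup.of 0 ^ (2 * k + 1)) (by simp [laws]) (fun _ => a)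
        simpa using this
    exact integrable h hp

end Pool.Agent.Results.MP_fbf3cb_al.OddPrimeExponentClassTwo
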